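import Mathlib
import Pool.Agent.TH839.LD.Stm
import Pool.Agent.H353R6.E9

/-!
# Vertical decay of the Gamma function with uniform constants (job 2062, project LD of helper839)
-/

set_option autoImplicit false

open Complex Filter Topology Set

namespace Pool.Agent.TH9.LD

/-- derivative of `log ‖f‖` along a path -/
lemma log_norm_deriv {f : ℝ → ℂ} {f' : ℂ} {t : ℝ} (h : HasDerivAt f f' t) (h0 : f t ≠ 0) :
    HasDerivAt (fun t => Real.log ‖f t‖) (f' / f t).re t := by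
  have hre : HasDerivAt (fun t => (f t).re) f'.re t := Complex.reCLM.hasFDerivAt.comp_hasDerivAt t h
  have him : HasDerivAt (fun t => (f t).im) f'.im t := Complex.imCLM.hasFDerivAt.comp_hasDerivAt t h
  have h1 : HasDerivAt (fun t => (f t).re * (f t).re + (f t).im * (f t).im)
      (f'.re * (f t).re + (f t).re * f'.re + (f'.im * (f t).im + (f t).im * f'.im)) t :=
    (hre.mul hre).add (him.mul him)
  have hn : Complex.normSq (f t) ≠ 0 := fun h2 => h0 (Complex.normSq_eq_zero.1 h2)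
  have hpos : (f t).re * (f t).re + (f t).im * (f t).im ≠ 0 := by
    rwa [Complex.normSq_apply] at hn
  have h2 := (h1.log hpos).const_mul (1 / 2)
  have e1 : (fun t => Real.log ‖f t‖) =
      fun t => 1 / 2 * Real.log ((f t).re * (f t).re + (f t).im * (f t).im) := by
    funext s
    rw [← Complex.normSq_apply, Complex.normSq_eq_norm_sq, Real.log_pow]
    push_cast
    ring
  have e2 : (f' / f t).re = 1 / 2 * ((f'.re * (f t).re + (f t).re * f'.re +
      (f'.im * (f t).im + (f t).im * f'.im)) / ((f t).re * (f t).re + (f t).im * (f t).im)) := by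
    rw [Complex.div_re, Complex.normSq_apply]
    field_simp
    ring
  rw [e1, e2]
  exact h2

lemma gamma_ne {σ y : ℝ} (hσ : 0 < σ) : Gamma ((σ : ℂ) + y * I) ≠ 0 := by
  apply Complex.Gamma_ne_zero_of_re_pos
  simpa using hσ

lemma deriv_aux {σ y : ℝ} (hσ : 0 < σ) :
    HasDerivAt (fun t : ℝ => Real.log ‖Gamma ((t : ℂ) + y * I)‖)
      (logDeriv Gamma ((σ : ℂ) + y * I)).re σ := by
  have hd : DifferentiableAt ℂ Gamma ((σ : ℂ) + y * I) := by
    apply Complex.differentiableAt_Gamma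
    intro m h
    have := congrArg re h
    simp at this
    have h2 : (0 : ℝ) ≤ m := Nat.cast_nonneg m
    linarith
  have h1 : HasDerivAt (fun t : ℝ => (t : ℂ) + y * I) 1 σ := by
    simpa using (Complex.ofRealCLM.hasDerivAt (x := σ)).add_const ((y : ℂ) * I)
  have h2 : HasDerivAt (fun t : ℝ => Gamma ((t : ℂ) + y * I)) (deriv Gamma ((σ : ℂ) + y * I)) σ := by
    have h3 := HasDerivAt.comp (𝕜 := ℝ) (𝕜' := ℂ) σ (h₂ := Gamma) (h := fun t : ℝ => (t : ℂ) + y * I)
      (h₂' := deriv Gamma ((σ : ℂ) + y * I)) (h' := 1) hd.hasDerivAt h1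
    rw [mul_one] at h3
    exact h3
  have h3 := log_norm_deriv h2 (gamma_ne hσ)
  rw [logDeriv_apply]
  exact h3

/-- horizontal comparison -/
lemma horiz {x : ℝ} (y : ℝ) (hx : 1 / 2 < x) : ∃ c : ℝ, 1 / 2 < c ∧ c < x ∧
    Real.log ‖Gamma ((x : ℂ) + y * I)‖ - Real.log ‖Gamma (((1 / 2 : ℝ) : ℂ) + y * I)‖ =
      (x - 1 / 2) * (logDeriv Gamma ((c : ℂ) + y * I)).re := by
  obtain ⟨c, hc, h⟩ := exists_hasDerivAt_eq_slope
    (fun t : ℝ => Real.log ‖Gamma ((t : ℂ) + y * I)‖)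
    (fun t : ℝ => (logDeriv Gamma ((t : ℂ) + y * I)).re) hx
    (fun t ht => (deriv_aux (by linarith [ht.1])).continuousAt.continuousWithinAt)
    (fun t ht => deriv_aux (by linarith [ht.1]))
  refine ⟨c, hc.1, hc.2, ?_⟩
  have h0 : x - 1 / 2 ≠ 0 := by linarith
  rw [h, mul_div_cancel₀ _ h0]

lemma dig_bounds {c y x : ℝ} (hc : 1 / 2 < c) (hcx : c < x) :
    Real.log (1 + |y|) - 8 ≤ (logDeriv Gamma ((c : ℂ) + y * I)).re ∧
      (logDeriv Gamma ((c : ℂ) + y * I)).re ≤ Real.log (x + 2) + Real.log (1 + |y|) + 7 := by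
  have h1 := (Complex.abs_re_le_norm _).trans
    (H353.E.dig_aux (s := (c : ℂ) + y * I) (by simp; linarith))
  rw [sub_re, Complex.log_re, abs_le] at h1
  have hy : 0 ≤ |y| := abs_nonneg y
  have hlo : (1 + |y|) / 2 ≤ ‖(c : ℂ) + y * I + 2‖ := by
    have h2 := re_le_norm ((c : ℂ) + y * I + 2)
    have h3 := abs_im_le_norm ((c : ℂ) + y * I + 2)
    simp at h2 h3
    linarith
  have hup : ‖(c : ℂ) + y * I + 2‖ ≤ (x + 2) * (1 + |y|) := by
    have h2 := norm_le_abs_re_add_abs_im ((c : ℂ) + y * I + 2)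
    simp only [add_re, ofReal_re, mul_re, I_re, mul_zero, ofReal_im, I_im, mul_one, sub_self,
      add_zero, re_ofNat, add_im, mul_im, zero_add, im_ofNat] at h2
    rw [abs_of_pos (by linarith : 0 < c + 2)] at h2
    nlinarith
  have hpos : 0 < (1 + |y|) / 2 := by linarith
  have e1 : Real.log ((1 + |y|) / 2) = Real.log (1 + |y|) - Real.log 2 := by
    rw [Real.log_div (by linarith) (by norm_num)]
  have e2 : Real.log ((x + 2) * (1 + |y|)) = Real.log (x + 2) + Real.log (1 + |y|) := by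
    rw [Real.log_mul (by linarith) (by linarith)]
  have l1 := Real.log_le_log hpos hlo
  have l2 := Real.log_le_log (hpos.trans_le hlo) hup
  have l3 : Real.log 2 ≤ 1 := by linarith [Real.log_two_lt_d9]
  rw [e1] at l1
  rw [e2] at l2
  constructor <;> linarith [h1.1, h1.2]

lemma gamma_half (τ : ℝ) :
    ‖Gamma (((1 / 2 : ℝ) : ℂ) + τ * I)‖ ^ 2 = Real.pi / Real.cosh (Real.pi * τ) := by
  have e0 : (((1 / 2 : ℝ) : ℂ)) = 1 / 2 := by push_cast; ring
  rw [e0]
  have h1 := Complex.Gamma_mul_Gamma_one_sub ((1 / 2 : ℂ) + τ * I)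
  have h2 : (1 : ℂ) - ((1 / 2 : ℂ) + τ * I) = (starRingEnd ℂ) ((1 / 2 : ℂ) + τ * I) := by
    rw [map_add, map_mul, Complex.conj_I, Complex.conj_ofReal]
    have : (starRingEnd ℂ) (1 / 2 : ℂ) = 1 / 2 := by
      rw [map_div₀, map_one]
      congr 1
      exact Complex.conj_ofNat 2
    rw [this]
    ring
  rw [h2, Complex.Gamma_conj, Complex.mul_conj, Complex.normSq_eq_norm_sq] at h1
  have h3 : Complex.sin ((Real.pi : ℂ) * ((1 / 2 : ℂ) + τ * I)) = ((Real.cosh (Real.pi * τ) : ℝ) : ℂ) := by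
    have : (Real.pi : ℂ) * ((1 / 2 : ℂ) + τ * I) = ((Real.pi * τ : ℝ) : ℂ) * I + Real.pi / 2 := by
      push_cast; ring
    rw [this, Complex.sin_add_pi_div_two, Complex.cos_mul_I, Complex.ofReal_cosh]
  rw [h3] at h1
  exact_mod_cast h1

lemma log_gamma_half (τ : ℝ) :
    2 * Real.log ‖Gamma (((1 / 2 : ℝ) : ℂ) + τ * I)‖ =
      Real.log Real.pi - Real.log (Real.cosh (Real.pi * τ)) := by
  rw [← Real.log_div Real.pi_pos.ne' (Real.cosh_pos _).ne', ← gamma_half, Real.log_pow]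
  push_cast
  ring

lemma log_cosh_le (u : ℝ) : Real.log (Real.cosh u) ≤ |u| := by
  rw [Real.log_le_iff_le_exp (Real.cosh_pos _), Real.cosh_eq]
  have h1 : Real.exp u ≤ Real.exp |u| := Real.exp_le_exp.2 (le_abs_self u)
  have h2 : Real.exp (-u) ≤ Real.exp |u| := Real.exp_le_exp.2 (neg_le_abs u)
  linarith

lemma le_log_cosh (u : ℝ) : u - 1 ≤ Real.log (Real.cosh u) := by
  rw [Real.le_log_iff_exp_le (Real.cosh_pos _), Real.cosh_eq, Real.exp_sub]
  have h1 : 2 ≤ Real.exp 1 := by linarith [Real.exp_one_gt_d9]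
  have h2 := Real.exp_pos u
  have h3 := Real.exp_pos (-u)
  rw [div_le_iff₀ (Real.exp_pos 1)]
  nlinarith

/-- the basic estimate in logarithmic form -/
lemma main_log {x X y v D : ℝ} (hx : 3 / 2 ≤ x) (hX : x ≤ X) (hD : 0 ≤ D) (hy : -D ≤ 2 * y)
    (hv : 0 ≤ v) :
    Real.log ‖Gamma ((x : ℂ) + ((y + v / 2 : ℝ) : ℂ) * I)‖ - Real.log ‖Gamma ((x : ℂ) + y * I)‖ ≤
      X * (X + 16) + 4 * X ^ 2 + 1 + Real.pi * D / 2 + 1 - v / 2 := by
  obtain ⟨c1, h11, h12, h13⟩ := horiz (y + v / 2) (by linarith : 1 / 2 < x)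
  obtain ⟨c2, h21, h22, h23⟩ := horiz y (by linarith : 1 / 2 < x)
  have b1 := (dig_bounds (y := y + v / 2) h11 h12).2
  have b2 := (dig_bounds (y := y) h21 h22).1
  have g1 := log_gamma_half (y + v / 2)
  have g2 := log_gamma_half y
  have l1 := log_cosh_le (Real.pi * y)
  have l2 := le_log_cosh (Real.pi * (y + v / 2))
  have hpi := Real.pi_pos
  rw [abs_mul, abs_of_pos hpi] at l1
  -- difference `|y| - y ≤ D`
  have hyD : |y| - y ≤ D := by
    rcases abs_cases y with h | h <;> linarith [h.1]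
  -- logs
  have hya : 0 ≤ |y| := abs_nonneg y
  have m1 : Real.log (1 + |y + v / 2|) ≤ Real.log (1 + |y|) + Real.log (1 + v) := by
    rw [← Real.log_mul (by linarith) (by linarith)]
    apply Real.log_le_log (by positivity)
    have := abs_add_le y (v / 2)
    rw [abs_of_nonneg (by linarith : 0 ≤ v / 2)] at this
    nlinarith
  have hXp : 0 < X := by linarith
  have m2 : Real.log (1 + v) ≤ (1 + v) / (4 * X) + 4 * X := by
    have h1 := Real.log_le_sub_one_of_pos (show (0 : ℝ) < (1 + v) / (4 * X) by positivity)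
    rw [Real.log_div (by linarith) (by linarith)] at h1
    have h2 := Real.log_le_sub_one_of_pos (show (0 : ℝ) < 4 * X by positivity)
    linarith
  have m3 : Real.log (x + 2) ≤ X + 1 := by
    have h1 := Real.log_le_sub_one_of_pos (show (0 : ℝ) < x + 2 by linarith)
    linarith
  -- the horizontal parts
  have k1 : (x - 1 / 2) * (logDeriv Gamma ((c1 : ℂ) + ((y + v / 2 : ℝ) : ℂ) * I)).re -
      (x - 1 / 2) * (logDeriv Gamma ((c2 : ℂ) + y * I)).re ≤
        X * (X + 16 + Real.log (1 + v)) := by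
    have h1 : (logDeriv Gamma ((c1 : ℂ) + ((y + v / 2 : ℝ) : ℂ) * I)).re -
        (logDeriv Gamma ((c2 : ℂ) + y * I)).re ≤ X + 16 + Real.log (1 + v) := by
      linarith
    have h2 : 0 ≤ X + 16 + Real.log (1 + v) := by
      have := Real.log_nonneg (by linarith : (1 : ℝ) ≤ 1 + v)
      linarith
    rw [← mul_sub]
    calc _ ≤ (x - 1 / 2) * (X + 16 + Real.log (1 + v)) :=
          mul_le_mul_of_nonneg_left h1 (by linarith)
      _ ≤ X * (X + 16 + Real.log (1 + v)) := mul_le_mul_of_nonneg_right (by linarith) h2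
  have k2 : X * Real.log (1 + v) ≤ 1 / 4 + v / 4 + 4 * X ^ 2 := by
    have h1 := mul_le_mul_of_nonneg_left m2 hXp.le
    have h2 : X * ((1 + v) / (4 * X) + 4 * X) = 1 / 4 + v / 4 + 4 * X ^ 2 := by
      field_simp
    linarith
  have k3 : Real.pi * (|y| - y) ≤ Real.pi * D := mul_le_mul_of_nonneg_left hyD hpi.le
  have k4 : 3 * v ≤ Real.pi * v := mul_le_mul_of_nonneg_right Real.pi_gt_three.le hv
  nlinarith [h13, h23, k1, k2, k3, k4, l1, l2, g1, g2]

/-- GDEC (job 2062) -/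
theorem gdec : Pool.Agent.TH839.LD.S_GDEC := by
  intro A R hA hR
  set X : ℝ := (7 / 2 + A) / 2 with hX
  set K : ℝ := X * (X + 16) + 4 * X ^ 2 + 1 + Real.pi * (R + A) / 2 + 1 with hK
  refine ⟨Real.exp K, Real.exp_pos _, ?_⟩
  intro μ T v hμ hμre hT hv
  have hre : |μ.re| ≤ A := (abs_re_le_norm μ).trans hμ
  have him : |μ.im| ≤ A := (abs_im_le_norm μ).trans hμ
  rw [abs_le] at hre him
  set x : ℝ := (7 / 2 - μ.re) / 2 with hx
  set y : ℝ := (T - μ.im) / 2 with hy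
  have e1 : (7 / 2 + ((T + v : ℝ) : ℂ) * I - μ) / 2 = (x : ℂ) + ((y + v / 2 : ℝ) : ℂ) * I := by
    apply Complex.ext
    · simp [hx]
    · simp [hy]
      try ring
  have e2 : (7 / 2 + (T : ℂ) * I - μ) / 2 = (x : ℂ) + (y : ℂ) * I := by
    apply Complex.ext
    · simp [hx]
    · simp [hy]
  have n1 : ∀ w : ℝ, ‖((Real.pi : ℂ)) ^ (-(7 / 2 + (w : ℂ) * I - μ) / 2)‖ = Real.pi ^ (-x) := by
    intro w
    rw [norm_cpow_eq_rpow_re_of_pos Real.pi_pos]
    congr 1
    simp [hx]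
    ring
  have hm := main_log (x := x) (X := X) (y := y) (v := v) (D := R + A) (by rw [hx]; linarith)
    (by rw [hx, hX]; linarith [hre.1]) (by linarith) (by rw [hy]; linarith [him.2]) hv
  rw [Gammaℝ_def, Gammaℝ_def, norm_mul, norm_mul, n1, n1, e1, e2]
  have hp1 : 0 < ‖Gamma ((x : ℂ) + ((y + v / 2 : ℝ) : ℂ) * I)‖ :=
    norm_pos_iff.2 (gamma_ne (by rw [hx]; linarith))
  have hp2 : 0 < ‖Gamma ((x : ℂ) + (y : ℂ) * I)‖ :=
    norm_pos_iff.2 (gamma_ne (by rw [hx]; linarith))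
  have hfin : ‖Gamma ((x : ℂ) + ((y + v / 2 : ℝ) : ℂ) * I)‖ ≤
      Real.exp K * Real.exp (-(v / 2)) * ‖Gamma ((x : ℂ) + (y : ℂ) * I)‖ := by
    have h1 : Real.log ‖Gamma ((x : ℂ) + ((y + v / 2 : ℝ) : ℂ) * I)‖ ≤
        K + -(v / 2) + Real.log ‖Gamma ((x : ℂ) + (y : ℂ) * I)‖ := by
      rw [hK]
      linarith
    have h2 := (Real.log_le_iff_le_exp hp1).1 h1
    rw [Real.exp_add, Real.exp_add, Real.exp_log hp2] at h2
    exact h2
  have hpx : 0 ≤ Real.pi ^ (-x) := by positivity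
  calc _ ≤ Real.pi ^ (-x) *
        (Real.exp K * Real.exp (-(v / 2)) * ‖Gamma ((x : ℂ) + (y : ℂ) * I)‖) :=
        mul_le_mul_of_nonneg_left hfin hpx
    _ = _ := by ring

end Pool.Agent.TH9.LD
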